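import Mathlib
import Pool.Agent.H.MP_c8cc4c_co.Iface
import Pool.Agent.H.MP_c8cc4c_co.B.Path

/-! # MP_c8cc4c_co, part E, file 2: spanning forest of the classes, representative edges

`cls : X.V → I` is a partition of the vertices into connected classes. An edge is *inner* if its two
ends are in the same class. -/

open scoped Classical
open Finset

noncomputable section

namespace Pool.Agent.H.MP_c8cc4c_co

variable {X : PC} {I : Type} [Fintype I] (cls : X.V → I)

/-- inner edges -/
def Inner (e : X.E) : Prop := ∀ x y, X.inc e x → X.inc e y → cls x = cls y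

omit [Fintype I] in
theorem forest_inner_iff (hX : X.IsSphere) {e : X.E} {x y : X.V} (hxy : x ≠ y) (hx : X.inc e x)
    (hy : X.inc e y) : Inner cls e ↔ cls x = cls y := by
  constructor
  · intro h
    exact h x y hx hy
  · intro h u v hu hv
    obtain ⟨y', hy'ne, hy', hall⟩ := other_end hX hx
    have hyy : y = y' := by
      rcases hall y hy with h1 | h1
      · exact absurd h1.symm hxy
      · exact h1
    have hu' := hall u hu
    have hv' := hall v hv
    rw [← hyy] at hu' hv'
    rcases hu' with rfl | rfl <;> rcases hv' with rfl | rfl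
    · rfl
    · exact h
    · exact h.symm
    · rfl

/-- A maximal set `T` of inner edges which supports no nonzero even chain. (Finite: take one of maximal
cardinality; the empty set is such a set.) For every inner edge `e` there is a chain
`z` supported in `T` with `dE z = dE [e]`: if `e ∈ T` take `[e]`; otherwise `insert e T` supports a nonzero even
chain `z'`, `z' e ≠ 0` since `T` supports none, and `z = z' + [e]`. -/
theorem exists_max_forest (hX : X.IsSphere) : ∃ T : Finset X.E, (∀ e ∈ T, Inner cls e) ∧
    (∀ z, X.Ev z → (∀ e, z e ≠ 0 → e ∈ T) → z = 0) ∧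
    ∀ e, Inner cls e → ∃ z : X.E → ZMod 2, (∀ e', z e' ≠ 0 → e' ∈ T) ∧
      X.dE z = X.dE (Pi.single e 1) := by
  set Good : Finset X.E → Prop := fun T => (∀ e ∈ T, Inner cls e) ∧
    (∀ z, X.Ev z → (∀ e, z e ≠ 0 → e ∈ T) → z = 0) with hGood
  have h0 : Good ∅ := by
    refine ⟨by simp, fun z _ hz => ?_⟩
    funext e
    by_contra hcon
    exact absurd (hz e hcon) (by simp)
  obtain ⟨T, hT, hmax⟩ := Finset.exists_max_image (univ.filter Good) Finset.card
    ⟨∅, by simp only [Finset.mem_filter, Finset.mem_univ, true_and]; exact h0⟩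
  have hTG : Good T := (Finset.mem_filter.1 hT).2
  refine ⟨T, hTG.1, hTG.2, fun e he => ?_⟩
  by_cases heT : e ∈ T
  · refine ⟨Pi.single e 1, fun e' he' => ?_, rfl⟩
    by_cases hee : e' = e
    · rw [hee]; exact heT
    · exact absurd (by rw [Pi.single_eq_of_ne hee]) he'
  · have hnot : ¬ Good (insert e T) := by
      intro hG
      have := hmax (insert e T) (by
        simp only [Finset.mem_filter, Finset.mem_univ, true_and]
        exact hG)
      rw [Finset.card_insert_of_notMem heT] at this
      omega
    have h1 : ∀ e' ∈ insert e T, Inner cls e' := by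
      intro e' he'
      rcases Finset.mem_insert.1 he' with rfl | he'
      · exact he
      · exact hTG.1 e' he'
    have h2 : ¬ ∀ z, X.Ev z → (∀ e', z e' ≠ 0 → e' ∈ insert e T) → z = 0 := fun h => hnot ⟨h1, h⟩
    push Not at h2
    obtain ⟨z', hev, hsupp, hne⟩ := h2
    have hze : z' e ≠ 0 := by
      intro hze
      apply hne
      refine hTG.2 z' hev fun e' he' => ?_
      rcases Finset.mem_insert.1 (hsupp e' he') with rfl | h
      · exact absurd hze he'
      · exact h
    refine ⟨z' + Pi.single e 1, fun e' he' => ?_, ?_⟩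
    · by_cases hee : e' = e
      · exfalso
        apply he'
        rw [hee, Pi.add_apply, Pi.single_eq_same, zmod2_ne_zero.1 hze]
        exact CharTwo.add_self_eq_zero 1
      · rw [Pi.add_apply, Pi.single_eq_of_ne hee, add_zero] at he'
        rcases Finset.mem_insert.1 (hsupp e' he') with h | h
        · exact absurd h hee
        · exact h
    · rw [dE_add]
      have : X.dE z' = 0 := funext fun v => hev v
      rw [this, zero_add]

/-- The forest spans: every function on the vertices with sum `0` on each class is `dE z` with `z`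
supported in `T`. (First `w = δ_x + δ_y` with `x`, `y` in the same class: along a walk inside the
class (`near_induct` with `A` = the class), each edge of which is inner. Then `w = ∑ x, w x (δ_x + δ_{b (cls x)})` where `b i` is a fixed
vertex of the class `i`.) -/
theorem exists_forest (hX : X.IsSphere) (hc : ∀ i, ConnOn X.graph {v | cls v = i}) :
    ∃ T : Finset X.E, (∀ e ∈ T, Inner cls e) ∧
    (∀ z, X.Ev z → (∀ e, z e ≠ 0 → e ∈ T) → z = 0) ∧
    ∀ w : X.V → ZMod 2, (∀ i, ∑ v ∈ univ.filter (fun v => cls v = i), w v = 0) →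
      ∃ z : X.E → ZMod 2, (∀ e, z e ≠ 0 → e ∈ T) ∧ X.dE z = w := by
  obtain ⟨T, hT1, hT2, hT3⟩ := exists_max_forest cls hX
  refine ⟨T, hT1, hT2, ?_⟩
  set W : (X.V → ZMod 2) → Prop := fun w =>
    ∃ z : X.E → ZMod 2, (∀ e, z e ≠ 0 → e ∈ T) ∧ X.dE z = w with hW
  have hW0 : W 0 := ⟨0, fun e he => absurd rfl he, funext fun v => ev_zero v⟩
  have hWadd : ∀ w w', W w → W w' → W (w + w') := by
    rintro w w' ⟨z, hz, rfl⟩ ⟨z', hz', rfl⟩
    refine ⟨z + z', fun e he => ?_, dE_add z z'⟩
    by_contra hcon
    apply he
    have h1 : z e = 0 := by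
      by_contra h
      exact hcon (hz e h)
    have h2 : z' e = 0 := by
      by_contra h
      exact hcon (hz' e h)
    rw [Pi.add_apply, h1, h2, add_zero]
  -- adjacent vertices of the same class
  have hadj : ∀ x y, X.graph.Adj x y → cls x = cls y →
      W (Pi.single x 1 + Pi.single y 1) := by
    rintro x y ⟨hxy, e, hex, hey⟩ hcl
    obtain ⟨z, hz, hz2⟩ := hT3 e ((forest_inner_iff cls hX hxy hex hey).2 hcl)
    exact ⟨z, hz, by rw [hz2, dE_single hX hxy hex hey]⟩
  have hself : ∀ w : X.V → ZMod 2, w + w = 0 := fun w => by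
    funext v
    exact CharTwo.add_self_eq_zero _
  have hpair : ∀ x y, cls x = cls y → W (Pi.single x 1 + Pi.single y 1) := by
    intro x y hxy
    obtain ⟨n, hn⟩ := (hc (cls x)).2 x rfl y hxy.symm
    refine near_induct (fun v => W (Pi.single x 1 + Pi.single v 1)) ?_ hn ?_
    · intro u v hu hv huv hWu
      have hu' : cls u = cls x := hu
      have hv' : cls v = cls x := hv
      have h1 := hWadd _ _ hWu (hadj u v huv (hu'.trans hv'.symm))
      have h2 : (Pi.single x 1 + Pi.single u 1 + (Pi.single u 1 + Pi.single v 1) : X.V → ZMod 2) =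
          Pi.single x 1 + Pi.single v 1 := by
        have := hself (Pi.single u 1)
        linear_combination (exp := 1) this
      rw [h2] at h1
      exact h1
    · change W (Pi.single x 1 + Pi.single x 1)
      rw [hself]
      exact hW0
  intro w hw
  choose b hb using fun i => (hc i).1
  have hb' : ∀ i, cls (b i) = i := fun i => hb i
  have hsum : w = ∑ x, w x • ((Pi.single x 1 : X.V → ZMod 2) + Pi.single (b (cls x)) 1) := by
    funext v
    rw [Finset.sum_apply]
    simp only [Pi.smul_apply, Pi.add_apply, smul_eq_mul, mul_add]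
    rw [Finset.sum_add_distrib]
    have h1 : ∑ x, w x * (Pi.single x 1 : X.V → ZMod 2) v = w v := by
      rw [Finset.sum_eq_single v]
      · rw [Pi.single_eq_same, mul_one]
      · intro x _ hx
        rw [Pi.single_eq_of_ne hx.symm, mul_zero]
      · intro h
        exact absurd (Finset.mem_univ v) h
    have h2 : ∑ x, w x * (Pi.single (b (cls x)) 1 : X.V → ZMod 2) v = 0 := by
      by_cases hv : v = b (cls v)
      · have h3 := hw (cls v)
        rw [Finset.sum_filter] at h3
        rw [← h3]
        refine Finset.sum_congr rfl fun x _ => ?_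
        by_cases hx : cls x = cls v
        · rw [if_pos hx, hx, ← hv, Pi.single_eq_same, mul_one]
        · rw [if_neg hx, Pi.single_eq_of_ne, mul_zero]
          intro hcon
          apply hx
          rw [hcon, hb']
      · refine Finset.sum_eq_zero fun x _ => ?_
        rw [Pi.single_eq_of_ne, mul_zero]
        intro hcon
        apply hv
        have h4 : cls v = cls x := by rw [hcon, hb']
        rw [h4]
        exact hcon
    rw [h1, h2, add_zero]
  rw [hsum]
  refine Finset.sum_induction _ W hWadd hW0 fun x _ => ?_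
  rcases zmod2_cases (w x) with h | h
  · rw [h, zero_smul]
    exact hW0
  · rw [h, one_smul]
    exact hpair _ _ (hb' _).symm

/-- One edge for each pair of adjacent classes: choose an edge for each element of the finite set of
pairs `s(i, j)`, `i ≠ j`, such that there is an edge between the classes. -/
theorem exists_rep (hX : X.IsSphere) : ∃ R : Finset X.E, (∀ e ∈ R, ¬ Inner cls e) ∧
    (∀ e ∈ R, ∀ e' ∈ R, ∀ x y x' y', X.inc e x → X.inc e y → x ≠ y → X.inc e' x' → X.inc e' y' →
      x' ≠ y' → cls x = cls x' → cls y = cls y' → e = e') ∧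
    ∀ x y, X.graph.Adj x y → cls x ≠ cls y → ∃ e ∈ R, ∃ x' y', X.inc e x' ∧ X.inc e y' ∧
      cls x' = cls x ∧ cls y' = cls y := by
  choose p q hpq hinc using hX.inc_two
  set S : X.E → Sym2 I := fun e => s(cls (p e), cls (q e)) with hS
  have hSe : ∀ e x y, X.inc e x → X.inc e y → x ≠ y → S e = s(cls x, cls y) := by
    intro e x y hx hy hxy
    rcases (hinc e x).1 hx with h1 | h1 <;> rcases (hinc e y).1 hy with h2 | h2
    · exact absurd (h1.trans h2.symm) hxy
    · rw [hS, h1, h2]
    · rw [hS, h1, h2]
      exact Sym2.eq_swap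
    · exact absurd (h1.trans h2.symm) hxy
  set R : Finset X.E := univ.filter (fun e => ∃ k : Sym2 I,
    ∃ h : (∃ e, ¬ Inner cls e ∧ S e = k), e = Classical.choose h) with hR
  have hR' : ∀ e ∈ R, ∃ h : (∃ e', ¬ Inner cls e' ∧ S e' = S e), e = Classical.choose h := by
    intro e he
    obtain ⟨-, k, h, hek⟩ := Finset.mem_filter.1 he
    have h1 : S e = k := by
      rw [hek]
      exact (Classical.choose_spec h).2
    subst h1
    exact ⟨h, hek⟩
  refine ⟨R, ?_, ?_, ?_⟩
  · intro e he
    obtain ⟨h, hek⟩ := hR' e he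
    rw [hek]
    exact (Classical.choose_spec h).1
  · intro e he e' he' x y x' y' hx hy hxy hx' hy' hxy' hc1 hc2
    have h1 : S e = S e' := by
      rw [hSe e x y hx hy hxy, hSe e' x' y' hx' hy' hxy', hc1, hc2]
    obtain ⟨h, hek⟩ := hR' e he
    obtain ⟨h', hek'⟩ := hR' e' he'
    rw [hek, hek']
    congr 1
    funext e''
    rw [h1]
  · rintro x y ⟨hxy, e0, hx, hy⟩ hcl
    have h0 : ∃ e, ¬ Inner cls e ∧ S e = S e0 :=
      ⟨e0, fun h => hcl ((forest_inner_iff cls hX hxy hx hy).1 h), rfl⟩
    refine ⟨Classical.choose h0, ?_, ?_⟩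
    · rw [hR, Finset.mem_filter]
      exact ⟨Finset.mem_univ _, S e0, h0, rfl⟩
    · set e := Classical.choose h0 with he
      have h1 : S e = S e0 := (Classical.choose_spec h0).2
      rw [hSe e0 x y hx hy hxy] at h1
      have h2 : s(cls (p e), cls (q e)) = s(cls x, cls y) := h1
      rw [Sym2.eq_iff] at h2
      rcases h2 with ⟨h3, h4⟩ | ⟨h3, h4⟩
      · exact ⟨p e, q e, (hinc e _).2 (Or.inl rfl), (hinc e _).2 (Or.inr rfl), h3, h4⟩
      · exact ⟨q e, p e, (hinc e _).2 (Or.inr rfl), (hinc e _).2 (Or.inl rfl), h4, h3⟩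

/-- For a chain `z` even on the sphere and every class `i`, the sum of `z e` over the non-inner edges
with an end in the class `i` is `0`: sum of `dE z v` over the vertices `v` of the class; inner edges
count twice (or not at all), the others once (or not at all). -/
theorem class_sum (hX : X.IsSphere) (z : X.E → ZMod 2) (i : I) :
    ∑ v ∈ univ.filter (fun v => cls v = i), X.dE z v =
      ∑ e ∈ univ.filter (fun e => ¬ Inner cls e ∧ ∃ x, X.inc e x ∧ cls x = i), z e := by
  unfold PC.dE
  simp only [Finset.sum_filter]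
  have h1 : ∀ v, (if cls v = i then ∑ e, (if X.inc e v then z e else 0) else 0) =
      ∑ e, (if cls v = i then (if X.inc e v then z e else 0) else 0) := by
    intro v
    by_cases h : cls v = i
    · simp only [if_pos h]
    · simp only [if_neg h, Finset.sum_const_zero]
  simp only [h1]
  rw [Finset.sum_comm]
  refine Finset.sum_congr rfl fun e _ => ?_
  obtain ⟨x, y, hxy, hinc⟩ := hX.inc_two e
  have hex : X.inc e x := (hinc x).2 (Or.inl rfl)
  have hey : X.inc e y := (hinc y).2 (Or.inr rfl)
  have h2 : ∑ v, (if cls v = i then (if X.inc e v then z e else 0) else 0) =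
      (if cls x = i then z e else 0) + (if cls y = i then z e else 0) := by
    have h3 : ∀ v, (if cls v = i then (if X.inc e v then z e else 0) else 0) =
        (Pi.single x (if cls x = i then z e else 0) : X.V → ZMod 2) v +
        (Pi.single y (if cls y = i then z e else 0) : X.V → ZMod 2) v := by
      intro v
      by_cases hvx : v = x
      · subst hvx
        rw [Pi.single_eq_same, Pi.single_eq_of_ne hxy, add_zero, if_pos hex]
      · by_cases hvy : v = y
        · subst hvy
          rw [Pi.single_eq_same, Pi.single_eq_of_ne hvx, zero_add, if_pos hey]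
        · rw [Pi.single_eq_of_ne hvx, Pi.single_eq_of_ne hvy, add_zero]
          have : ¬ X.inc e v := fun h => by
            rcases (hinc v).1 h with h | h
            · exact hvx h
            · exact hvy h
          rw [if_neg this, ite_self]
    simp only [h3]
    rw [Finset.sum_add_distrib, Finset.sum_pi_single', Finset.sum_pi_single']
    simp
  rw [h2]
  by_cases hin : cls x = cls y
  · have h4 : Inner cls e := (forest_inner_iff cls hX hxy hex hey).2 hin
    have h5 : ¬ (¬ Inner cls e ∧ ∃ x, X.inc e x ∧ cls x = i) := fun h => h.1 h4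
    rw [if_neg h5, hin]
    exact CharTwo.add_self_eq_zero _
  · have h4 : ¬ Inner cls e := fun h => hin ((forest_inner_iff cls hX hxy hex hey).1 h)
    by_cases hx : cls x = i
    · have hy : ¬ cls y = i := fun h => hin (hx.trans h.symm)
      rw [if_pos hx, if_neg hy, add_zero, if_pos ⟨h4, x, hex, hx⟩]
    · by_cases hy : cls y = i
      · have h5 : ¬ Inner cls e ∧ ∃ x, X.inc e x ∧ cls x = i := ⟨h4, y, hey, hy⟩
        rw [if_neg hx, if_pos hy, zero_add, if_pos h5]
      · have h5 : ¬ (¬ Inner cls e ∧ ∃ x, X.inc e x ∧ cls x = i) := by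
          rintro ⟨-, v, hv, hvi⟩
          rcases (hinc v).1 hv with rfl | rfl
          · exact hx hvi
          · exact hy hvi
        rw [if_neg hx, if_neg hy, add_zero, if_neg h5]

/-- An even chain whose non-inner edges are in `R` (as in `exists_rep`) and which has at least one
non-inner edge has at least three of them: `e0` between the classes `i`, `j`; by `class_sum` there is another one at `i`,
going to a class `k ≠ j`, and another one at `j`, going to a class `l ≠ i`. -/
theorem three_rep (hX : X.IsSphere) (R : Finset X.E) (hR : ∀ e ∈ R, ¬ Inner cls e)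
    (hR1 : ∀ e ∈ R, ∀ e' ∈ R, ∀ x y x' y', X.inc e x → X.inc e y → x ≠ y → X.inc e' x' →
      X.inc e' y' → x' ≠ y' → cls x = cls x' → cls y = cls y' → e = e')
    (z : X.E → ZMod 2) (hz : X.Ev z) (hzR : ∀ e, z e ≠ 0 → ¬ Inner cls e → e ∈ R)
    (hne : ∃ e, z e ≠ 0 ∧ ¬ Inner cls e) : 3 ≤ (R.filter fun e => z e ≠ 0).card := by
  obtain ⟨e0, hz0, hin0⟩ := hne
  obtain ⟨x, y, hxy, hinc⟩ := hX.inc_two e0
  have hex : X.inc e0 x := (hinc x).2 (Or.inl rfl)
  have hey : X.inc e0 y := (hinc y).2 (Or.inr rfl)
  have hcl : cls x ≠ cls y := fun h => hin0 ((forest_inner_iff cls hX hxy hex hey).2 h)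
  -- another edge at the class of an end of `e0`
  have key : ∀ u, X.inc e0 u → ∃ e1, e1 ≠ e0 ∧ z e1 ≠ 0 ∧ ¬ Inner cls e1 ∧
      ∃ v, X.inc e1 v ∧ cls v = cls u := by
    intro u hu
    by_contra hcon
    push Not at hcon
    have h1 := class_sum cls hX z (cls u)
    have h2 : ∑ v ∈ univ.filter (fun v => cls v = cls u), X.dE z v = 0 :=
      Finset.sum_eq_zero fun v _ => hz v
    rw [h2, Finset.sum_eq_single e0] at h1
    · exact hz0 h1.symm
    · intro e he hee
      obtain ⟨-, hin, v, hv, hvu⟩ := Finset.mem_filter.1 he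
      by_contra hze
      exact hcon e hee hze hin v hv hvu
    · intro h
      exact absurd (Finset.mem_filter.2 ⟨Finset.mem_univ _, hin0, u, hu, rfl⟩) h
  obtain ⟨e1, h10, hz1, hin1, x1, hx1, hcx1⟩ := key x hex
  obtain ⟨e2, h20, hz2, hin2, y2, hy2, hcy2⟩ := key y hey
  have h12 : e1 ≠ e2 := by
    rintro rfl
    have hne : x1 ≠ y2 := by
      rintro rfl
      exact hcl (hcx1.symm.trans hcy2)
    exact h10 (hR1 e1 (hzR e1 hz1 hin1) e0 (hzR e0 hz0 hin0) x1 y2 x y hx1 hy2 hne hex hey hxy
      hcx1 hcy2)
  have hsub : ({e0, e1, e2} : Finset X.E) ⊆ R.filter fun e => z e ≠ 0 := by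
    intro e he
    simp only [Finset.mem_insert, Finset.mem_singleton] at he
    rcases he with rfl | rfl | rfl
    · exact Finset.mem_filter.2 ⟨hzR _ hz0 hin0, hz0⟩
    · exact Finset.mem_filter.2 ⟨hzR _ hz1 hin1, hz1⟩
    · exact Finset.mem_filter.2 ⟨hzR _ hz2 hin2, hz2⟩
  have hcard : ({e0, e1, e2} : Finset X.E).card = 3 := by
    rw [Finset.card_eq_three]
    exact ⟨e0, e1, e2, h10.symm, h20.symm, h12, rfl⟩
  rw [← hcard]
  exact Finset.card_le_card hsub

end Pool.Agent.H.MP_c8cc4c_co
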