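import Mathlib
import Pool.Agent.H.MP_c8cc4c_co.E.Forest

/-! # MP_c8cc4c_co, part E, file 3: regions, dimension of the even functions -/

open scoped Classical
open Finset

noncomputable section

namespace Pool.Agent.H.MP_c8cc4c_co

variable {X : PC} {I : Type} [Fintype I] (cls : X.V → I)

/-- The regions of the complement of `H`. -/
def regS (X : PC) (H : Finset X.E) : Setoid X.F :=
  Relation.EqvGen.setoid (fun f g => ∃ e, e ∉ H ∧ X.bd f e ∧ X.bd g e)

/-- The chains with boundary in `H` are the functions on the regions. -/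
theorem dF_supp_iff (hX : X.IsSphere) (H : Finset X.E) (c : X.F → ZMod 2) :
    (∀ e, X.dF c e ≠ 0 → e ∈ H) ↔ ∃ u : Quotient (regS X H) → ZMod 2, ∀ f, c f = u ⟦f⟧ := by
  constructor
  · intro h
    have key : ∀ f g, Relation.EqvGen (fun f g => ∃ e, e ∉ H ∧ X.bd f e ∧ X.bd g e) f g →
        c f = c g := by
      intro f g hfg
      induction hfg with
      | rel f g hr =>
        obtain ⟨e, he, hf, hg⟩ := hr
        have h0 : X.dF c e = 0 := by
          by_contra hne
          exact he (h e hne)
        exact (dF_zero_iff hX c).1 h0 f g hf hg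
      | refl f => rfl
      | symm f g _ ih => exact ih.symm
      | trans f g k _ _ ih1 ih2 => exact ih1.trans ih2
    exact ⟨Quotient.lift c (fun f g hfg => key f g hfg), fun f => rfl⟩
  · rintro ⟨u, hu⟩ e hne
    by_contra he
    apply hne
    rw [dF_zero_iff hX c]
    intro f g hf hg
    rw [hu f, hu g]
    have : (⟦f⟧ : Quotient (regS X H)) = ⟦g⟧ :=
      Quotient.sound (Relation.EqvGen.rel _ _ ⟨e, he, hf, hg⟩)
    rw [this]

/-- a non-inner edge is at exactly two classes -/
theorem E5a_two (hX : X.IsSphere) {e : X.E} (he : ¬ Inner cls e) (a : ZMod 2) :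
    ∑ i : I, (if ∃ x, X.inc e x ∧ cls x = i then a else 0) = 0 := by
  obtain ⟨x, y, hxy, hv⟩ := hX.inc_two e
  have hne : cls x ≠ cls y := by
    intro h
    apply he
    intro u v hu hv'
    rcases (hv u).1 hu with rfl | rfl <;> rcases (hv v).1 hv' with rfl | rfl
    · rfl
    · exact h
    · exact h.symm
    · rfl
  have hf : univ.filter (fun i : I => ∃ x, X.inc e x ∧ cls x = i) = {cls x, cls y} := by
    ext i
    simp only [Finset.mem_filter, Finset.mem_univ, true_and, Finset.mem_insert,
      Finset.mem_singleton]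
    constructor
    · rintro ⟨u, hu, rfl⟩
      rcases (hv u).1 hu with rfl | rfl
      · exact Or.inl rfl
      · exact Or.inr rfl
    · rintro (rfl | rfl)
      · exact ⟨x, (hv x).2 (Or.inl rfl), rfl⟩
      · exact ⟨y, (hv y).2 (Or.inr rfl), rfl⟩
  rw [← Finset.sum_filter, hf, Finset.sum_pair hne]
  exact CharTwo.add_self_eq_zero _

/-- the linear map used in `finrank_even` -/
def E5aL (R : Finset X.E) : (X.E → ZMod 2) →ₗ[ZMod 2] (I → ZMod 2) × ({e // e ∉ R} → ZMod 2) where
  toFun q := (fun i => ∑ e ∈ R.filter (fun e => ∃ x, X.inc e x ∧ cls x = i), q e,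
    fun e => q e.1)
  map_add' q q' := by
    apply Prod.ext
    · funext i
      simp [Finset.sum_add_distrib]
    · funext e
      simp
  map_smul' a q := by
    apply Prod.ext
    · funext i
      simp [Finset.mul_sum]
    · funext e
      simp

/-- the sum of the first coordinates -/
def E5aS (R : Finset X.E) : ((I → ZMod 2) × ({e // e ∉ R} → ZMod 2)) →ₗ[ZMod 2] ZMod 2 where
  toFun p := ∑ i, p.1 i
  map_add' p p' := by
    simp [Finset.sum_add_distrib]
  map_smul' a p := by
    simp [Finset.mul_sum]

/-- The even functions on `R` (`∑` over the edges of `R` at the class `i` is `0` for every `i`): there are at least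
`2^(m-n+1)` of them: the kernel of the linear map `(R → ZMod 2) → (I → ZMod 2)`, whose range is in the space of
functions with sum `0` (every edge of `R` is at exactly two classes), of dimension `n - 1`. -/
theorem finrank_even (hX : X.IsSphere) (R : Finset X.E) (hR : ∀ e ∈ R, ¬ Inner cls e)
    (hI : Nonempty I) (K : Submodule (ZMod 2) (X.E → ZMod 2))
    (hK : ∀ q, q ∈ K ↔ (∀ e, q e ≠ 0 → e ∈ R) ∧
      ∀ i, ∑ e ∈ R.filter (fun e => ∃ x, X.inc e x ∧ cls x = i), q e = 0) :
    R.card + 1 ≤ Module.finrank (ZMod 2) K + Fintype.card I := by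
  have hKL : K = LinearMap.ker (E5aL cls R) := by
    ext q
    rw [hK q, LinearMap.mem_ker]
    constructor
    · rintro ⟨h1, h2⟩
      apply Prod.ext
      · funext i
        exact h2 i
      · funext e
        by_contra hne
        exact e.2 (h1 e.1 hne)
    · intro h
      refine ⟨?_, ?_⟩
      · intro e hne
        by_contra he
        exact hne (congrFun (congrArg Prod.snd h) ⟨e, he⟩)
      · intro i
        exact congrFun (congrArg Prod.fst h) i
  have hle : LinearMap.range (E5aL cls R) ≤ LinearMap.ker (E5aS (I := I) R) := by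
    rintro p ⟨q, rfl⟩
    rw [LinearMap.mem_ker]
    change ∑ i, ∑ e ∈ R.filter (fun e => ∃ x, X.inc e x ∧ cls x = i), q e = 0
    have h1 : ∀ i, ∑ e ∈ R.filter (fun e => ∃ x, X.inc e x ∧ cls x = i), q e =
        ∑ e ∈ R, if ∃ x, X.inc e x ∧ cls x = i then q e else 0 := by
      intro i
      rw [Finset.sum_filter]
    rw [Finset.sum_congr rfl (fun i _ => h1 i), Finset.sum_comm]
    exact Finset.sum_eq_zero fun e he => E5a_two cls hX (hR e he) (q e)
  have hS : Function.Surjective (E5aS (X := X) (I := I) R) := by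
    intro a
    obtain ⟨i⟩ := hI
    refine ⟨(Pi.single i a, 0), ?_⟩
    change ∑ j, (Pi.single i a : I → ZMod 2) j = a
    simp
  have hSr := LinearMap.finrank_range_add_finrank_ker (E5aS (X := X) (I := I) R)
  rw [LinearMap.range_eq_top.2 hS, finrank_top, Module.finrank_self, Module.finrank_prod,
    Module.finrank_fintype_fun_eq_card, Module.finrank_fintype_fun_eq_card] at hSr
  have hLr := LinearMap.finrank_range_add_finrank_ker (E5aL cls R)
  rw [Module.finrank_fintype_fun_eq_card, ← hKL] at hLr
  have hfr := Submodule.finrank_mono hle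
  have hc1 : Fintype.card {e // e ∉ R} = (Rᶜ).card := by
    rw [Fintype.card_subtype]
    congr 1
    ext e
    simp
  have hc2 := Finset.card_add_card_compl R
  omega

/-- For every even `q` on `R` there is a chain `c` with `dF c` supported in `T ∪ R` and `dF c = q` on `R`: the function
`dE q` has sum `0` on every class (`class_sum`), so `dE q = dE z`, `z` supported in `T`; `q + z` is even, use `h1`. -/
theorem exists_chain (hX : X.IsSphere) (T R : Finset X.E) (hT : ∀ e ∈ T, Inner cls e)
    (hT2 : ∀ w : X.V → ZMod 2, (∀ i, ∑ v ∈ univ.filter (fun v => cls v = i), w v = 0) →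
      ∃ z : X.E → ZMod 2, (∀ e, z e ≠ 0 → e ∈ T) ∧ X.dE z = w)
    (hR : ∀ e ∈ R, ¬ Inner cls e) (q : X.E → ZMod 2) (hq : ∀ e, q e ≠ 0 → e ∈ R)
    (hq2 : ∀ i, ∑ e ∈ R.filter (fun e => ∃ x, X.inc e x ∧ cls x = i), q e = 0) :
    ∃ c, (∀ e, X.dF c e ≠ 0 → e ∈ T ∪ R) ∧ ∀ e ∈ R, X.dF c e = q e := by
  obtain ⟨z, hz, hzw⟩ := hT2 (X.dE q) (by
    intro i
    rw [class_sum cls hX q i, ← hq2 i]
    refine (Finset.sum_subset ?_ ?_).symm
    · intro e he
      rw [Finset.mem_filter] at he ⊢
      exact ⟨Finset.mem_univ _, hR e he.1, he.2⟩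
    · intro e he hne
      rw [Finset.mem_filter] at he hne
      by_contra hq0
      exact hne ⟨hq e hq0, he.2.2⟩)
  have hev : X.Ev (q + z) := by
    intro v
    rw [dE_add, hzw]
    exact CharTwo.add_self_eq_zero _
  obtain ⟨c, hc⟩ := hX.h1 _ hev
  refine ⟨c, ?_, ?_⟩
  · intro e hne
    rw [hc] at hne
    rw [Finset.mem_union]
    by_contra hno
    push Not at hno
    apply hne
    have h1 : q e = 0 := by
      by_contra h
      exact hno.2 (hq e h)
    have h2 : z e = 0 := by
      by_contra h
      exact hno.1 (hz e h)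
    rw [Pi.add_apply, h1, h2, add_zero]
  · intro e he
    rw [hc]
    have h2 : z e = 0 := by
      by_contra h
      exact hR e he (hT e (hz e h))
    rw [Pi.add_apply, h2, add_zero]

end Pool.Agent.H.MP_c8cc4c_co
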