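import Mathlib
import Pool.Agent.H.MP_c8cc4c_co.E.E5a

/-! # MP_c8cc4c_co, part E, file 4: counting the regions -/

open scoped Classical
open Finset

noncomputable section

namespace Pool.Agent.H.MP_c8cc4c_co

variable {X : PC} {I : Type} [Fintype I] (cls : X.V → I)

/-- the chain of a function on the regions, restricted to `R` -/
def E5bPhi (X : PC) (H R : Finset X.E) :
    (Quotient (regS X H) → ZMod 2) →ₗ[ZMod 2] (X.E → ZMod 2) where
  toFun u e := if e ∈ R then X.dF (fun f => u ⟦f⟧) e else 0
  map_add' u u' := by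
    funext e
    by_cases he : e ∈ R
    · simp only [he, if_true, Pi.add_apply]
      have := congrFun (dF_add (M := X) (fun f => u ⟦f⟧) (fun f => u' ⟦f⟧)) e
      exact this
    · simp [he]
  map_smul' a u := by
    funext e
    by_cases he : e ∈ R
    · simp only [he, if_true, Pi.smul_apply, smul_eq_mul, RingHom.id_apply, PC.dF, Finset.mul_sum]
    · simp [he]

/-- Number of regions: `m + 2 ≤ φ + n`. The space of chains with boundary in `T ∪ R` has dimension `φ`
(`dF_supp_iff`); the linear map `c ↦ (dF c restricted to R)` from it to the space `K` of even functions on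
`R` is onto (`exists_chain`), and its kernel contains the constant `1`; so `φ ≥ 1 + dim K ≥ m - n + 2`. -/
theorem regions_card (hX : X.IsSphere) (hc : ∀ i, ConnOn X.graph {v | cls v = i}) (hI : Nonempty I)
    (hF : Nonempty X.F) (T R : Finset X.E)
    (hT : ∀ e ∈ T, Inner cls e)
    (hT2 : ∀ w : X.V → ZMod 2, (∀ i, ∑ v ∈ univ.filter (fun v => cls v = i), w v = 0) →
      ∃ z : X.E → ZMod 2, (∀ e, z e ≠ 0 → e ∈ T) ∧ X.dE z = w)
    (hR : ∀ e ∈ R, ¬ Inner cls e) :
    R.card + 2 ≤ Fintype.card (Quotient (regS X (T ∪ R))) + Fintype.card I := by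
  set Φ := E5bPhi X (T ∪ R) R with hΦ
  set K := LinearMap.ker (E5aL cls R) with hK
  have hmem : ∀ q, q ∈ K ↔ (∀ e, q e ≠ 0 → e ∈ R) ∧
      ∀ i, ∑ e ∈ R.filter (fun e => ∃ x, X.inc e x ∧ cls x = i), q e = 0 := by
    intro q
    rw [hK, LinearMap.mem_ker]
    constructor
    · intro h
      refine ⟨?_, ?_⟩
      · intro e hne
        by_contra he
        exact hne (congrFun (congrArg Prod.snd h) ⟨e, he⟩)
      · intro i
        exact congrFun (congrArg Prod.fst h) i
    · rintro ⟨h1, h2⟩
      apply Prod.ext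
      · funext i
        exact h2 i
      · funext e
        by_contra hne
        exact e.2 (h1 e.1 hne)
  have h1 := finrank_even cls hX R hR hI K hmem
  have hle : K ≤ LinearMap.range Φ := by
    intro q hq
    obtain ⟨hq1, hq2⟩ := (hmem q).1 hq
    obtain ⟨c, hc1, hc2⟩ := exists_chain cls hX T R hT hT2 hR q hq1 hq2
    obtain ⟨u, hu⟩ := (dF_supp_iff hX (T ∪ R) c).1 hc1
    refine ⟨u, ?_⟩
    funext e
    change (if e ∈ R then X.dF (fun f => u ⟦f⟧) e else 0) = q e
    have hcu : (fun f => u ⟦f⟧) = c := by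
      funext f
      exact (hu f).symm
    rw [hcu]
    by_cases he : e ∈ R
    · rw [if_pos he, hc2 e he]
    · rw [if_neg he]
      by_contra hne
      exact he (hq1 e (fun h => hne h.symm))
  have h2 := Submodule.finrank_mono hle
  have h3 := LinearMap.finrank_range_add_finrank_ker Φ
  rw [Module.finrank_fintype_fun_eq_card] at h3
  have h4 : 0 < Module.finrank (ZMod 2) (LinearMap.ker Φ) := by
    have hone : (fun _ => 1 : Quotient (regS X (T ∪ R)) → ZMod 2) ∈ LinearMap.ker Φ := by
      rw [LinearMap.mem_ker]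
      funext e
      change (if e ∈ R then X.dF (fun _ => 1) e else 0) = 0
      have : X.dF (fun _ => 1) e = 0 := by
        rw [dF_zero_iff hX]
        intros
        rfl
      rw [this]
      simp
    have hnt : Nontrivial (LinearMap.ker Φ) := by
      refine ⟨⟨⟨_, hone⟩, 0, ?_⟩⟩
      intro h
      obtain ⟨f⟩ := hF
      have := congrFun (congrArg Subtype.val h) ⟦f⟧
      simp at this
    exact Module.finrank_pos
  omega

/-- Counting: if there are at least two regions, `3 φ ≤ 2 m`. For each region `A` the chain `d 1_A` is not `0`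
(otherwise `1_A` is constant by `const_of_dF`), it is even and supported in `T ∪ R`; it contains an edge of `R` (else it is supported
in `T`, so `0`); so it contains at least three edges of `R` (`three_rep`). Each edge of `R` is in `d 1_A` for at most
two regions `A` (the regions of its two faces). -/
theorem regions_three (hX : X.IsSphere) (T R : Finset X.E)
    (hT : ∀ e ∈ T, Inner cls e) (hT1 : ∀ z, X.Ev z → (∀ e, z e ≠ 0 → e ∈ T) → z = 0)
    (hR : ∀ e ∈ R, ¬ Inner cls e)
    (hR1 : ∀ e ∈ R, ∀ e' ∈ R, ∀ x y x' y', X.inc e x → X.inc e y → x ≠ y → X.inc e' x' →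
      X.inc e' y' → x' ≠ y' → cls x = cls x' → cls y = cls y' → e = e')
    (h2 : 2 ≤ Fintype.card (Quotient (regS X (T ∪ R)))) :
    3 * Fintype.card (Quotient (regS X (T ∪ R))) ≤ 2 * R.card := by
  -- the chain of a region
  set c : (Quotient (regS X (T ∪ R))) → X.F → ZMod 2 := fun A f => if (⟦f⟧ : (Quotient (regS X (T ∪ R)))) = A then 1 else 0 with hc
  have hsupp : ∀ A e, X.dF (c A) e ≠ 0 → e ∈ T ∪ R := by
    intro A
    exact (dF_supp_iff hX (T ∪ R) (c A)).2 ⟨fun B => if B = A then 1 else 0, fun f => rfl⟩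
  have hne : ∀ A, X.dF (c A) ≠ 0 := by
    intro A h0
    have hnt : Nontrivial (Quotient (regS X (T ∪ R))) := Fintype.one_lt_card_iff_nontrivial.1 (by omega)
    obtain ⟨B, hB⟩ := exists_ne A
    obtain ⟨f, rfl⟩ := Quotient.exists_rep A
    obtain ⟨g, rfl⟩ := Quotient.exists_rep B
    have := const_of_dF hX h0 f g
    simp only [hc, if_true, if_neg hB] at this
    exact one_ne_zero this
  have h3 : ∀ A, 3 ≤ (R.filter fun e => X.dF (c A) e ≠ 0).card := by
    intro A
    refine three_rep cls hX R hR hR1 (X.dF (c A)) (ev_dF hX _) ?_ ?_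
    · intro e he hin
      rcases Finset.mem_union.1 (hsupp A e he) with h | h
      · exact absurd (hT e h) hin
      · exact h
    · by_contra hno
      push Not at hno
      apply hne A
      refine hT1 _ (ev_dF hX _) ?_
      intro e he
      rcases Finset.mem_union.1 (hsupp A e he) with h | h
      · exact h
      · exact absurd (hno e he) (hR e h)
  have hsum : ∑ A : (Quotient (regS X (T ∪ R))), (R.filter fun e => X.dF (c A) e ≠ 0).card ≤ 2 * R.card := by
    have h4 : ∀ A : (Quotient (regS X (T ∪ R))), (R.filter fun e => X.dF (c A) e ≠ 0).card =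
        ∑ e ∈ R, if X.dF (c A) e ≠ 0 then 1 else 0 := by
      intro A
      rw [Finset.card_filter]
    rw [Finset.sum_congr rfl (fun A _ => h4 A), Finset.sum_comm]
    have h5 : ∀ e ∈ R, (∑ A : (Quotient (regS X (T ∪ R))), if X.dF (c A) e ≠ 0 then 1 else 0) ≤ 2 := by
      intro e _
      rw [← Finset.card_filter]
      obtain ⟨f, g, -, hfg⟩ := hX.bd_two e
      have hsub : (univ.filter fun A : (Quotient (regS X (T ∪ R))) => X.dF (c A) e ≠ 0) ⊆ {(⟦f⟧ : (Quotient (regS X (T ∪ R)))), (⟦g⟧ : (Quotient (regS X (T ∪ R))))} := by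
        intro A hA
        rw [Finset.mem_filter] at hA
        obtain ⟨f', g', hf', -, h1, -⟩ := (dF_ne_zero_iff hX (c A)).1 hA.2
        have hA' : (⟦f'⟧ : (Quotient (regS X (T ∪ R)))) = A := by
          by_contra hne'
          simp only [hc, if_neg hne'] at h1
          exact zero_ne_one h1
        rw [Finset.mem_insert, Finset.mem_singleton]
        rcases (hfg f').1 hf' with rfl | rfl
        · exact Or.inl hA'.symm
        · exact Or.inr hA'.symm
      exact (Finset.card_le_card hsub).trans Finset.card_le_two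
    calc ∑ e ∈ R, ∑ A : (Quotient (regS X (T ∪ R))), (if X.dF (c A) e ≠ 0 then 1 else 0) ≤ ∑ e ∈ R, 2 :=
          Finset.sum_le_sum h5
      _ = 2 * R.card := by
          rw [Finset.sum_const, smul_eq_mul, mul_comm]
  have hlow : 3 * Fintype.card (Quotient (regS X (T ∪ R))) ≤ ∑ A : (Quotient (regS X (T ∪ R))), (R.filter fun e => X.dF (c A) e ≠ 0).card := by
    calc 3 * Fintype.card (Quotient (regS X (T ∪ R))) = ∑ _A : (Quotient (regS X (T ∪ R))), 3 := by
          rw [Finset.sum_const, smul_eq_mul, mul_comm, Finset.card_univ]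
      _ ≤ _ := Finset.sum_le_sum fun A _ => h3 A
  exact hlow.trans hsum

end Pool.Agent.H.MP_c8cc4c_co
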