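import Mathlib
import Pool.Agent.H.MP_c8cc4c_co.E.E5b

/-! # MP_c8cc4c_co, part E, file 5: a class with at most five neighbours -/

open scoped Classical
open Finset

noncomputable section

namespace Pool.Agent.H.MP_c8cc4c_co

variable {X : PC} {I : Type} [Fintype I] (cls : X.V → I)

/-- `m ≤ 3n - 6` for `n ≥ 3` classes (if there is only one region, `m + 1 ≤ n`). -/
theorem rep_le (hX : X.IsSphere) (hc : ∀ i, ConnOn X.graph {v | cls v = i})
    (hn : 3 ≤ Fintype.card I) (hF : Nonempty X.F) :
    ∃ R : Finset X.E, R.card + 6 ≤ 3 * Fintype.card I ∧ (∀ e ∈ R, ¬ Inner cls e) ∧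
    ∀ x y, X.graph.Adj x y → cls x ≠ cls y → ∃ e ∈ R, ∃ x' y', X.inc e x' ∧ X.inc e y' ∧
      cls x' = cls x ∧ cls y' = cls y := by
  have hI : Nonempty I := by
    apply Fintype.card_pos_iff.1
    omega
  obtain ⟨T, hT, hT1, hT2⟩ := exists_forest cls hX hc
  obtain ⟨R, hR, hR1, hR2⟩ := exists_rep cls hX
  have h1 := regions_card cls hX hc hI hF T R hT hT2 hR
  refine ⟨R, ?_, hR, hR2⟩
  by_cases h2 : 2 ≤ Fintype.card (Quotient (regS X (T ∪ R)))
  · have h3 := regions_three cls hX T R hT hT1 hR hR1 h2
    omega
  · omega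

/-- The class with at most five neighbours. For `n = 2` trivial. For `n ≥ 3`: the sum over all classes `P`
of the number of neighbours of `P` is at most `2 m ≤ 6 n - 12` (each edge of `R` is counted for at most two ordered pairs);
if all `P ≠ star` had at least `6` neighbours the sum would be at least `6 (n - 1)`. (There is a face: there are
at least two classes so there are two vertices, `exists_at`.) -/
theorem e5 : E5Stmt := by
  intro X hX I _ cls hc star hI
  by_contra hcon
  push Not at hcon
  obtain ⟨P, hP⟩ : ∃ P, P ≠ star := by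
    have : Nontrivial I := Fintype.one_lt_card_iff_nontrivial.1 (by omega)
    exact exists_ne star
  -- number of classes
  have hn : 7 ≤ Fintype.card I := by
    have h1 := hcon P hP
    have h2 : (univ.filter fun P' => P' ≠ P ∧ ∃ x y, X.graph.Adj x y ∧ cls x = P ∧
        cls y = P').card ≤ (univ.erase P).card := by
      apply Finset.card_le_card
      intro Q hQ
      rw [Finset.mem_filter] at hQ
      exact Finset.mem_erase.2 ⟨hQ.2.1, mem_univ _⟩
    rw [Finset.card_erase_of_mem (mem_univ _), Finset.card_univ] at h2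
    omega
  have hF : Nonempty X.F := by
    obtain ⟨x, hx⟩ := (hc P).1
    obtain ⟨y, hy⟩ := (hc star).1
    have hxy : x ≠ y := by
      rintro rfl
      exact hP (hx.symm.trans hy)
    obtain ⟨f, -⟩ := exists_at hX hxy
    exact ⟨f⟩
  obtain ⟨R, hR, -, hR2⟩ := rep_le cls hX hc (by omega) hF
  set Q : Finset (I × I) := univ.filter (fun p => p.2 ≠ p.1 ∧ ∃ x y, X.graph.Adj x y ∧
    cls x = p.1 ∧ cls y = p.2) with hQ
  have hQc : Q.card = ∑ P, (univ.filter fun P' => P' ≠ P ∧ ∃ x y, X.graph.Adj x y ∧ cls x = P ∧
      cls y = P').card := by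
    simp only [hQ, Finset.card_filter]
    rw [Fintype.sum_prod_type]
  have hch : ∀ p : I × I, p ∈ Q → ∃ e ∈ R, ∃ x' y', X.inc e x' ∧ X.inc e y' ∧
      cls x' = p.1 ∧ cls y' = p.2 := by
    intro p hp
    rw [hQ, Finset.mem_filter] at hp
    obtain ⟨-, hne, x, y, hxy, hx, hy⟩ := hp
    obtain ⟨e, he, x', y', h1, h2, h3, h4⟩ := hR2 x y hxy (by rw [hx, hy]; exact hne.symm)
    exact ⟨e, he, x', y', h1, h2, h3.trans hx, h4.trans hy⟩
  have hR0 : Q.Nonempty := by
    have h1 := hcon P hP
    obtain ⟨P', hP'⟩ := Finset.card_pos.1 (lt_of_lt_of_le (by norm_num) h1)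
    rw [Finset.mem_filter] at hP'
    refine ⟨(P, P'), ?_⟩
    rw [hQ, Finset.mem_filter]
    exact ⟨mem_univ _, hP'.2⟩
  obtain ⟨p0, hp0⟩ := hR0
  obtain ⟨e0, he0, -⟩ := hch p0 hp0
  set f : I × I → X.E := fun p => if h : p ∈ Q then (hch p h).choose else e0 with hf
  have hf1 : ∀ p (h : p ∈ Q), f p = (hch p h).choose := by
    intro p h
    simp only [hf, dif_pos h]
  have hcard : Q.card ≤ 2 * R.card := by
    apply Finset.card_le_mul_card_image_of_maps_to (f := f)
    · intro p hp
      rw [hf1 p hp]
      exact (hch p hp).choose_spec.1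
    · intro e he
      obtain ⟨x, y, hxy, hends⟩ := hX.inc_two e
      have hsub : (Q.filter fun p => f p = e) ⊆ {(cls x, cls y), (cls y, cls x)} := by
        intro p hp
        rw [Finset.mem_filter] at hp
        obtain ⟨hp, hpe⟩ := hp
        rw [hf1 p hp] at hpe
        obtain ⟨-, x', y', h1, h2, h3, h4⟩ := (hch p hp).choose_spec
        rw [hpe] at h1 h2
        have hne : p.2 ≠ p.1 := by
          rw [hQ, Finset.mem_filter] at hp
          exact hp.2.1
        have hxy' : x' ≠ y' := by
          rintro rfl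
          exact hne (h4.symm.trans h3)
        rw [Finset.mem_insert, Finset.mem_singleton]
        rcases (hends x').1 h1 with rfl | rfl <;> rcases (hends y').1 h2 with rfl | rfl
        · exact absurd rfl hxy'
        · left; exact Prod.ext h3.symm h4.symm
        · right; exact Prod.ext h3.symm h4.symm
        · exact absurd rfl hxy'
      exact (Finset.card_le_card hsub).trans Finset.card_le_two
  have hlow : 6 * (Fintype.card I - 1) ≤ Q.card := by
    rw [hQc]
    calc 6 * (Fintype.card I - 1) = ∑ P ∈ univ.erase star, 6 := by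
          rw [Finset.sum_const, Finset.card_erase_of_mem (mem_univ _), Finset.card_univ,
            smul_eq_mul, mul_comm]
      _ ≤ ∑ P ∈ univ.erase star, (univ.filter fun P' => P' ≠ P ∧ ∃ x y, X.graph.Adj x y ∧
            cls x = P ∧ cls y = P').card := by
          apply Finset.sum_le_sum
          intro P hP
          exact hcon P (Finset.ne_of_mem_erase hP)
      _ ≤ _ := by
          apply Finset.sum_le_sum_of_subset
          exact Finset.erase_subset _ _
  omega

end Pool.Agent.H.MP_c8cc4c_co
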