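import Mathlib
import Pool.Agent.H.MP_c8cc4c_co.B.Path

/-! # MP_c8cc4c_co, part E, file 7: cocycles -/

open scoped Classical
open Finset

noncomputable section

namespace Pool.Agent.H.MP_c8cc4c_co

theorem Cocycle_pair_zero (M : PC) (hM : M.IsSphere) (w : M.E → ZMod 2)
    (hw : ∀ f, ∑ e ∈ univ.filter (fun e => M.bd f e), w e = 0) (z : M.E → ZMod 2) (hz : M.Ev z) :
    ∑ e, w e * z e = 0 := by
  obtain ⟨c, rfl⟩ := hM.h1 z hz
  have h1 : ∀ e, w e * M.dF c e = ∑ f, (if M.bd f e then w e * c f else 0) := by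
    intro e
    unfold PC.dF
    rw [Finset.mul_sum, Finset.sum_filter]
  simp only [h1]
  rw [Finset.sum_comm]
  apply Finset.sum_eq_zero
  intro f _
  have h2 : ∑ e, (if M.bd f e then w e * c f else 0)
      = (∑ e ∈ univ.filter (fun e => M.bd f e), w e) * c f := by
    rw [Finset.sum_mul, Finset.sum_filter]
  rw [h2, hw f, zero_mul]

theorem Cocycle_add_self (a : ZMod 2) : a + a = 0 := CharTwo.add_self_eq_zero a

/-- `H^1 = 0`: a function on the edges whose sum on every face is `0` is a coboundary. (For an even chain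
`z = dF c`: `∑ e, w e * z e = ∑ f, c f * ∑ e in f, w e = 0`. Fix a vertex `b` and for every `x` a chain `z_x` with
`dE z_x = δ_b + δ_x` (`path_chain`); `U x = ∑ e, w e * z_x e`. For an edge `e` with ends `x`, `y` the chain
`z_x + z_y + [e]` is even.) -/
theorem cocycle_cobdry (M : PC) (hM : M.IsSphere) (w : M.E → ZMod 2)
    (hw : ∀ f, ∑ e ∈ univ.filter (fun e => M.bd f e), w e = 0) :
    ∃ U : M.V → ZMod 2, ∀ e x y, x ≠ y → M.inc e x → M.inc e y → w e = U x + U y := by
  obtain ⟨b⟩ := hM.nonempty
  have hz : ∀ x, ∃ z : M.E → ZMod 2, M.dE z = Pi.single b 1 + Pi.single x 1 := by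
    intro x
    obtain ⟨n, hn⟩ := hM.conn b x
    obtain ⟨z, hz, -⟩ := path_chain hM hn
    exact ⟨z, hz⟩
  choose zz hzz using hz
  refine ⟨fun x => ∑ e, w e * zz x e, ?_⟩
  intro e x y hxy hx hy
  have hev : M.Ev (zz x + zz y + Pi.single e 1) := by
    intro v
    rw [dE_add, dE_add, dE_single hM hxy hx hy, hzz, hzz]
    simp only [Pi.add_apply]
    have h1 := Cocycle_add_self ((Pi.single b 1 : M.V → ZMod 2) v)
    have h2 := Cocycle_add_self ((Pi.single x 1 : M.V → ZMod 2) v)
    have h3 := Cocycle_add_self ((Pi.single y 1 : M.V → ZMod 2) v)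
    linear_combination h1 + h2 + h3
  have h0 := Cocycle_pair_zero M hM w hw _ hev
  simp only [Pi.add_apply, mul_add, Finset.sum_add_distrib] at h0
  have h1 : ∑ e', w e' * (Pi.single e 1 : M.E → ZMod 2) e' = w e := by
    rw [Finset.sum_eq_single e]
    · simp
    · intro d _ hd
      rw [Pi.single_eq_of_ne hd, mul_zero]
    · intro h
      exact absurd (mem_univ e) h
  rw [h1] at h0
  have h2 := Cocycle_add_self (w e)
  show w e = (∑ e', w e' * zz x e') + ∑ e', w e' * zz y e'
  linear_combination h2 - h0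

/-- A coboundary `w` (in the sense of `cocycle_cobdry`) such that `w` vanishes on all edges inside `S` and on all edges inside
the complement of `S`, both of which are connected, is `0` or is nonzero exactly on `cut S`. -/
theorem cocycle_two (M : PC) (hM : M.IsSphere) (w : M.E → ZMod 2)
    (hw : ∀ f, ∑ e ∈ univ.filter (fun e => M.bd f e), w e = 0) (S : Set M.V)
    (hS : ConnOn M.graph S) (hS' : ConnOn M.graph Sᶜ) (hw0 : ∀ e, e ∉ M.cut S → w e = 0) :
    w = 0 ∨ ∀ e, e ∈ M.cut S → w e ≠ 0 := by
  obtain ⟨U, hU⟩ := cocycle_cobdry M hM w hw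
  have key : ∀ A : Set M.V, (A = S ∨ A = Sᶜ) → ConnOn M.graph A →
      ∃ a : ZMod 2, ∀ x ∈ A, U x = a := by
    intro A hA hAc
    obtain ⟨x0, hx0⟩ := hAc.1
    refine ⟨U x0, ?_⟩
    intro x hx
    obtain ⟨n, hn⟩ := hAc.2 x0 hx0 x hx
    refine near_induct (fun v => U v = U x0) ?_ hn rfl
    intro u v hu hv huv huu
    obtain ⟨huv1, e, he1, he2⟩ := huv
    have hcut : e ∉ M.cut S := by
      intro hc
      unfold PC.cut at hc
      rw [Finset.mem_filter] at hc
      obtain ⟨-, ⟨p, hp, hpS⟩, q, hq, hqS⟩ := hc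
      obtain ⟨p0, q0, hpq, hends⟩ := hM.inc_two e
      have hu' := (hends u).1 he1
      have hv' := (hends v).1 he2
      have hp' := (hends p).1 hp
      have hq' := (hends q).1 hq
      have hpuv : p = u ∨ p = v := by
        rcases hu' with rfl | rfl <;> rcases hv' with rfl | rfl <;> rcases hp' with rfl | rfl <;>
          simp_all
      have hquv : q = u ∨ q = v := by
        rcases hu' with rfl | rfl <;> rcases hv' with rfl | rfl <;> rcases hq' with rfl | rfl <;>
          simp_all
      have hpA : p ∈ A := by rcases hpuv with rfl | rfl <;> assumption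
      have hqA : q ∈ A := by rcases hquv with rfl | rfl <;> assumption
      rcases hA with rfl | rfl
      · exact hqS hqA
      · exact hpA hpS
    have h1 := hU e u v huv1 he1 he2
    rw [hw0 e hcut] at h1
    show U v = U x0
    have h2 := Cocycle_add_self (U v)
    have : U u = U x0 := huu
    linear_combination h1 + h2 + this
  obtain ⟨a, ha⟩ := key S (Or.inl rfl) hS
  obtain ⟨a', ha'⟩ := key Sᶜ (Or.inr rfl) hS'
  by_cases haa : a = a'
  · left
    funext e
    obtain ⟨x, y, hxy, hends⟩ := hM.inc_two e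
    have h1 := hU e x y hxy ((hends x).2 (Or.inl rfl)) ((hends y).2 (Or.inr rfl))
    have hall : ∀ v, U v = a := by
      intro v
      by_cases hv : v ∈ S
      · exact ha v hv
      · rw [haa]; exact ha' v hv
    rw [h1, hall, hall]
    exact Cocycle_add_self a
  · right
    intro e he h0
    unfold PC.cut at he
    rw [Finset.mem_filter] at he
    obtain ⟨-, ⟨p, hp, hpS⟩, q, hq, hqS⟩ := he
    have hpq : p ≠ q := by
      rintro rfl
      exact hqS hpS
    have h1 := hU e p q hpq hp hq
    rw [h0, ha p hpS, ha' q hqS] at h1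
    apply haa
    have h2 := Cocycle_add_self a'
    linear_combination -h1 - h2

end Pool.Agent.H.MP_c8cc4c_co
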