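import Mathlib
import Pool.Agent.H.MP_c8cc4c_co.Iface

/-! # MP_c8cc4c_co, part E, file 1: `H_1 = 0` and the Euler formula -/

open scoped Classical
open Finset

noncomputable section

namespace Pool.Agent.H.MP_c8cc4c_co

/-- `dF` as a linear map -/
def dFL (M : PC) : (M.F → ZMod 2) →ₗ[ZMod 2] (M.E → ZMod 2) where
  toFun := M.dF
  map_add' c c' := by
    funext e
    simp [PC.dF, Finset.sum_add_distrib]
  map_smul' a c := by
    funext e
    simp [PC.dF, Finset.mul_sum]

/-- `dE` as a linear map -/
def dEL (M : PC) : (M.E → ZMod 2) →ₗ[ZMod 2] (M.V → ZMod 2) where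
  toFun := M.dE
  map_add' c c' := by
    funext e
    simp [PC.dE, Finset.sum_add_distrib]
  map_smul' a c := by
    funext e
    simp [PC.dE, Finset.mul_sum]

/-- The kernel of the sum of coordinates has dimension `|V| - 1` (rank-nullity; the sum is onto
because `V` is nonempty). -/
theorem finrank_ker_sum (V : Type) [Fintype V] [Nonempty V] :
    Module.finrank (ZMod 2) (LinearMap.ker
      (Fintype.linearCombination (ZMod 2) (fun _ : V => (1 : ZMod 2)) :
        (V → ZMod 2) →ₗ[ZMod 2] ZMod 2)) + 1 = Fintype.card V := by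
  set φ := (Fintype.linearCombination (ZMod 2) (fun _ : V => (1 : ZMod 2)) :
        (V → ZMod 2) →ₗ[ZMod 2] ZMod 2) with hφ
  have h := LinearMap.finrank_range_add_finrank_ker φ
  have hs : Function.Surjective φ := by
    intro a
    obtain ⟨b⟩ := (inferInstance : Nonempty V)
    refine ⟨Pi.single b a, ?_⟩
    rw [hφ, Fintype.linearCombination_apply_single]
    simp
  rw [LinearMap.range_eq_top.2 hs, finrank_top, Module.finrank_self, Module.finrank_fintype_fun_eq_card] at h
  omega

theorem H1Euler_two (M : PC) (h2 : ∀ e, ∃ x y, x ≠ y ∧ ∀ v, M.inc e v ↔ v = x ∨ v = y) (e : M.E) :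
    ∃ x y, x ≠ y ∧ univ.filter (fun v => M.inc e v) = {x, y} := by
  obtain ⟨x, y, hxy, h⟩ := h2 e
  refine ⟨x, y, hxy, ?_⟩
  ext v
  simp [h v]

/-- the boundary of a single edge with ends `x`, `y` -/
theorem H1Euler_dE_single (M : PC) (h2 : ∀ e, ∃ x y, x ≠ y ∧ ∀ v, M.inc e v ↔ v = x ∨ v = y)
    (e : M.E) (x y : M.V) (hxy : x ≠ y) (hx : M.inc e x) (hy : M.inc e y) :
    M.dE (Pi.single e 1) = Pi.single x 1 + Pi.single y 1 := by
  obtain ⟨x', y', hxy', h⟩ := h2 e
  have hv : ∀ v, M.inc e v ↔ v = x ∨ v = y := by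
    intro v
    rw [h v]
    rcases (h x).1 hx with rfl | rfl <;> rcases (h y).1 hy with rfl | rfl
    · exact absurd rfl hxy
    · rfl
    · exact or_comm
    · exact absurd rfl hxy
  funext v
  unfold PC.dE
  rw [Finset.sum_filter]
  have : ∀ e' : M.E, (if M.inc e' v then (Pi.single e (1 : ZMod 2) : M.E → ZMod 2) e' else 0) =
      if e' = e then (if M.inc e v then 1 else 0) else 0 := by
    intro e'
    by_cases he : e' = e
    · subst he
      simp
    · simp [he]
  rw [Finset.sum_congr rfl (fun e' _ => this e'), Finset.sum_ite_eq' Finset.univ e]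
  simp only [Finset.mem_univ, if_true, Pi.add_apply]
  by_cases h1 : v = x
  · subst h1
    rw [if_pos hx]
    simp [hxy]
  · by_cases h3 : v = y
    · subst h3
      rw [if_pos hy]
      simp [hxy]
    · rw [if_neg (by rw [hv]; tauto)]
      simp [h1, h3]

theorem H1Euler_pair (M : PC) (h2 : ∀ e, ∃ x y, x ≠ y ∧ ∀ v, M.inc e v ↔ v = x ∨ v = y)
    {x y : M.V} (p : M.graph.Walk x y) :
    (Pi.single x 1 + Pi.single y 1 : M.V → ZMod 2) ∈ LinearMap.range (dEL M) := by
  induction p with
  | nil =>
    have : ∀ u : M.V, (Pi.single u 1 + Pi.single u 1 : M.V → ZMod 2) = 0 := by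
      intro u
      funext v
      exact CharTwo.add_self_eq_zero _
    rw [this]
    exact Submodule.zero_mem _
  | @cons a b c hab p ih =>
    obtain ⟨hne, e, ha, hb⟩ := hab
    have h3 : (Pi.single a 1 + Pi.single b 1 : M.V → ZMod 2) ∈ LinearMap.range (dEL M) :=
      ⟨Pi.single e 1, H1Euler_dE_single M h2 e a b hne ha hb⟩
    have h4 := Submodule.add_mem _ h3 ih
    have h5 : (Pi.single a 1 + Pi.single b 1 + (Pi.single b 1 + Pi.single c 1) : M.V → ZMod 2) =
        Pi.single a 1 + Pi.single c 1 := by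
      have h6 : (Pi.single b 1 + Pi.single b 1 : M.V → ZMod 2) = 0 := by
        funext v
        exact CharTwo.add_self_eq_zero _
      calc (Pi.single a 1 + Pi.single b 1 + (Pi.single b 1 + Pi.single c 1) : M.V → ZMod 2)
          = Pi.single a 1 + (Pi.single b 1 + Pi.single b 1) + Pi.single c 1 := by abel
        _ = _ := by rw [h6, add_zero]
    rw [h5] at h4
    exact h4

/-- The range of `dE` is the kernel of the sum of coordinates: every edge has two ends, so the sum of
`dE z` is `0`; conversely for two vertices `x`, `y` the function `δ_x + δ_y` is in the range (walk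
from `x` to `y`, `near_induct` style induction: for adjacent vertices it is `dE` of an edge), and every function
`w` with sum `0` is `∑ x, w x (δ_x + δ_b)` for a fixed vertex `b`. -/
theorem range_dE (M : PC) (h2 : ∀ e, ∃ x y, x ≠ y ∧ ∀ v, M.inc e v ↔ v = x ∨ v = y)
    (hc : ∀ x y : M.V, ∃ n, Near M.graph Set.univ n x y) (hV : Nonempty M.V)
    (w : M.V → ZMod 2) : (∃ z, M.dE z = w) ↔ ∑ v, w v = 0 := by
  constructor
  · rintro ⟨z, rfl⟩
    have h : ∀ v, M.dE z v = ∑ e, if M.inc e v then z e else 0 := by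
      intro v
      unfold PC.dE
      rw [Finset.sum_filter]
    rw [Finset.sum_congr rfl (fun v _ => h v), Finset.sum_comm]
    refine Finset.sum_eq_zero fun e _ => ?_
    rw [← Finset.sum_filter]
    obtain ⟨x, y, hxy, hf⟩ := H1Euler_two M h2 e
    rw [hf, Finset.sum_pair hxy]
    exact CharTwo.add_self_eq_zero _
  · intro hw
    obtain ⟨b⟩ := hV
    have h1 : (∑ x, w x • (Pi.single x 1 + Pi.single b 1 : M.V → ZMod 2)) ∈
        LinearMap.range (dEL M) := by
      refine Submodule.sum_mem _ fun x _ => Submodule.smul_mem _ _ ?_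
      obtain ⟨n, p, -, -⟩ := hc x b
      exact H1Euler_pair M h2 p
    have h3 : (∑ x, w x • (Pi.single x 1 + Pi.single b 1 : M.V → ZMod 2)) = w := by
      funext v
      simp only [smul_add, Finset.sum_add_distrib]
      rw [← Finset.sum_smul, hw]
      simp only [zero_smul, add_zero, Finset.sum_apply, Pi.smul_apply, smul_eq_mul]
      rw [Finset.sum_eq_single v]
      · simp
      · intro u _ hu
        simp [hu.symm]
      · intro h
        exact absurd (Finset.mem_univ v) h
    rw [h3] at h1
    obtain ⟨z, hz⟩ := h1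
    exact ⟨z, hz⟩

/-- `finrank (range dEL) = |V| - 1` -/
theorem finrank_range_dE (M : PC) (h2 : ∀ e, ∃ x y, x ≠ y ∧ ∀ v, M.inc e v ↔ v = x ∨ v = y)
    (hc : ∀ x y : M.V, ∃ n, Near M.graph Set.univ n x y) (hV : Nonempty M.V) :
    Module.finrank (ZMod 2) (LinearMap.range (dEL M)) + 1 = Fintype.card M.V := by
  have h := finrank_ker_sum M.V
  have h3 : LinearMap.range (dEL M) = LinearMap.ker
      (Fintype.linearCombination (ZMod 2) (fun _ : M.V => (1 : ZMod 2)) :
        (M.V → ZMod 2) →ₗ[ZMod 2] ZMod 2) := by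
    ext w
    rw [LinearMap.mem_range, LinearMap.mem_ker, Fintype.linearCombination_apply]
    simp only [smul_eq_mul, mul_one]
    exact range_dE M h2 hc hV w
  rw [h3]
  exact h

/-- `finrank (ker dFL) = 1`: the kernel consists of the two constant functions. -/
theorem finrank_ker_dF (M : PC) (h1 : M.dF (fun _ => 1) = 0) (hF : Nonempty M.F)
    (hk : ∀ c : M.F → ZMod 2, M.dF c = 0 → ∀ f g, c f = c g) :
    Module.finrank (ZMod 2) (LinearMap.ker (dFL M)) = 1 := by
  obtain ⟨f0⟩ := hF
  refine finrank_eq_one (⟨fun _ => 1, h1⟩ : LinearMap.ker (dFL M)) ?_ ?_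
  · intro h
    have := congrFun (congrArg Subtype.val h) f0
    simp at this
  · rintro ⟨c, hc⟩
    refine ⟨c f0, ?_⟩
    apply Subtype.ext
    funext f
    have := hk c hc f0 f
    simp [this]

/-- The theorem: with `r2 = finrank (range dFL) = |F| - 1` and
`k1 = finrank (ker dEL) = |E| - |V| + 1` (rank-nullity `LinearMap.finrank_range_add_finrank_ker`) and `range dFL ≤ ker dEL`:
equality of the two subspaces holds iff `r2 = k1` (`Submodule.eq_of_le_of_finrank_eq`). -/
theorem h1_euler : H1EulerStmt := by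
  intro M h2 hdd h1 hc hV hF hk
  have hr2 := LinearMap.finrank_range_add_finrank_ker (dFL M)
  rw [finrank_ker_dF M h1 hF hk, Module.finrank_fintype_fun_eq_card] at hr2
  have hk1 := LinearMap.finrank_range_add_finrank_ker (dEL M)
  have hr1 := finrank_range_dE M h2 hc hV
  rw [Module.finrank_fintype_fun_eq_card] at hk1
  have hle : LinearMap.range (dFL M) ≤ LinearMap.ker (dEL M) := by
    rintro z ⟨c, rfl⟩
    rw [LinearMap.mem_ker]
    funext v
    exact hdd c v
  have key : (∀ z : M.E → ZMod 2, M.Ev z → ∃ c : M.F → ZMod 2, M.dF c = z) ↔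
      Module.finrank (ZMod 2) (LinearMap.range (dFL M)) =
        Module.finrank (ZMod 2) (LinearMap.ker (dEL M)) := by
    constructor
    · intro h
      have : LinearMap.range (dFL M) = LinearMap.ker (dEL M) := by
        refine le_antisymm hle ?_
        intro z hz
        obtain ⟨c, hc'⟩ := h z (fun v => congrFun hz v)
        exact ⟨c, hc'⟩
      rw [this]
    · intro h z hz
      have := Submodule.eq_of_le_of_finrank_eq hle h
      have hz' : z ∈ LinearMap.ker (dEL M) := by
        rw [LinearMap.mem_ker]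
        funext v
        exact hz v
      rw [← this] at hz'
      obtain ⟨c, hc'⟩ := hz'
      exact ⟨c, hc'⟩
  rw [key]
  omega

end Pool.Agent.H.MP_c8cc4c_co
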