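import Mathlib
import Pool.Agent.H.MP_c8cc4c_co.E.H1Euler
import Pool.Agent.H.MP_c8cc4c_co.B.Star

/-! # MP_c8cc4c_co, part E, file 6: a sphere from the Euler formula -/

open scoped Classical
open Finset

noncomputable section

namespace Pool.Agent.H.MP_c8cc4c_co

theorem Builder_ev (M : PC)
    (face_two : ∀ f v, M.At f v → ∃ e e', e ≠ e' ∧ ∀ d, (M.bd f d ∧ M.inc d v) ↔ d = e ∨ d = e')
    (c : M.F → ZMod 2) : M.Ev (M.dF c) := by
  intro v
  have h1 : M.dE (M.dF c) v = ∑ e, ∑ f, if M.bd f e ∧ M.inc e v then c f else 0 := by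
    unfold PC.dE PC.dF
    rw [Finset.sum_filter]
    refine Finset.sum_congr rfl fun e _ => ?_
    by_cases he : M.inc e v
    · rw [if_pos he, Finset.sum_filter]
      refine Finset.sum_congr rfl fun f _ => ?_
      simp [he]
    · rw [if_neg he]
      simp [he]
  rw [h1, Finset.sum_comm]
  refine Finset.sum_eq_zero fun f _ => ?_
  rw [← Finset.sum_filter]
  by_cases hf : M.At f v
  · obtain ⟨e, e', hne, h⟩ := face_two f v hf
    have : univ.filter (fun d => M.bd f d ∧ M.inc d v) = {e, e'} := by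
      ext d
      simp [h d]
    rw [this, Finset.sum_pair hne]
    exact CharTwo.add_self_eq_zero _
  · have : univ.filter (fun d => M.bd f d ∧ M.inc d v) = ∅ := by
      ext d
      simp only [Finset.mem_filter, Finset.mem_univ, true_and, Finset.notMem_empty, iff_false]
      exact fun h => hf ⟨d, h⟩
    rw [this, Finset.sum_empty]

theorem Builder_one (M : PC) (bd_two : ∀ e, ∃ f g, f ≠ g ∧ ∀ h, M.bd h e ↔ h = f ∨ h = g) :
    M.dF (fun _ => 1) = 0 := by
  funext e
  obtain ⟨f, g, hfg, h⟩ := bd_two e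
  have : univ.filter (fun h => M.bd h e) = {f, g} := by
    ext d
    simp [h d]
  unfold PC.dF
  rw [this, Finset.sum_pair hfg]
  exact CharTwo.add_self_eq_zero _

theorem Builder_walk (M : PC)
    (bd_two : ∀ e, ∃ f g, f ≠ g ∧ ∀ h, M.bd h e ↔ h = f ∨ h = g)
    (star : ∀ (v : M.V) (c : M.F → ZMod 2), (∀ e, M.inc e v → M.dF c e = 0) →
      ∀ f g, M.At f v → M.At g v → c f = c g)
    (c : M.F → ZMod 2) (hc : M.dF c = 0) {x y : M.V} (p : M.graph.Walk x y) :
    ∀ f g, M.At f x → M.At g y → c f = c g := by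
  induction p with
  | nil =>
    intro f g hf hg
    exact star _ c (fun e _ => congrFun hc e) f g hf hg
  | @cons a b d hab p ih =>
    intro f g hf hg
    obtain ⟨-, e, ha, hb⟩ := hab
    obtain ⟨h, _, _, hh⟩ := bd_two e
    have hbd : M.bd h e := (hh h).2 (Or.inl rfl)
    exact (star a c (fun e _ => congrFun hc e) f h hf ⟨e, hbd, ha⟩).trans
      (ih h g ⟨e, hbd, hb⟩ hg)

/-- A complex with all properties of a sphere except `h1`, which satisfies the Euler formula, is a sphere.
(`h1_euler`; `dF c = 0` implies that `c` is constant: star property at every vertex, adjacent vertices have a common face,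
the graph is connected, every face has a vertex; `dF c` is even by `face_two`; `dF 1 = 0` by `bd_two`.) -/
theorem sphere_of_euler (M : PC) (inc_two : ∀ e, ∃ x y, x ≠ y ∧ ∀ v, M.inc e v ↔ v = x ∨ v = y)
    (bd_two : ∀ e, ∃ f g, f ≠ g ∧ ∀ h, M.bd h e ↔ h = f ∨ h = g)
    (face_two : ∀ f v, M.At f v → ∃ e e', e ≠ e' ∧ ∀ d, (M.bd f d ∧ M.inc d v) ↔ d = e ∨ d = e')
    (face_ne : ∀ f, ∃ e, M.bd f e)
    (face_cyc : ∀ f (z : M.E → ZMod 2), M.Ev z → (∀ e, z e ≠ 0 → M.bd f e) →
      z = 0 ∨ ∀ e, M.bd f e → z e ≠ 0)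
    (conn : ∀ x y : M.V, ∃ n, Near M.graph Set.univ n x y)
    (nonempty : Nonempty M.V) (hF : Nonempty M.F)
    (star : ∀ (v : M.V) (c : M.F → ZMod 2), (∀ e, M.inc e v → M.dF c e = 0) →
      ∀ f g, M.At f v → M.At g v → c f = c g)
    (euler : Fintype.card M.V + Fintype.card M.F = Fintype.card M.E + 2) : M.IsSphere := by
  have hconst : ∀ c : M.F → ZMod 2, M.dF c = 0 → ∀ f g, c f = c g := by
    intro c hc f g
    obtain ⟨e, he⟩ := face_ne f
    obtain ⟨e', he'⟩ := face_ne g
    obtain ⟨x, _, _, hx⟩ := inc_two e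
    obtain ⟨y, _, _, hy⟩ := inc_two e'
    obtain ⟨n, p, -, -⟩ := conn x y
    exact Builder_walk M bd_two star c hc p f g ⟨e, he, (hx x).2 (Or.inl rfl)⟩
      ⟨e', he', (hy y).2 (Or.inl rfl)⟩
  exact
    { inc_two := inc_two
      bd_two := bd_two
      face_two := face_two
      face_ne := face_ne
      face_cyc := face_cyc
      conn := conn
      nonempty := nonempty
      star := star
      h1 := (h1_euler M inc_two (Builder_ev M face_two) (Builder_one M bd_two) conn nonempty hF
        hconst).2 euler }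

/-- The Euler formula for a sphere. -/
theorem euler_of_sphere (M : PC) (hM : M.IsSphere) (hF : Nonempty M.F) :
    Fintype.card M.V + Fintype.card M.F = Fintype.card M.E + 2 :=
  (h1_euler M hM.inc_two (ev_dF hM) (Builder_one M hM.bd_two) hM.conn hM.nonempty hF
    (fun _ hc f g => const_of_dF hM hc f g)).1 hM.h1

end Pool.Agent.H.MP_c8cc4c_co
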